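import Pool.Agent.Helper15.UL.GoalsE

/-! # MP_57a173_lc: packet INV -/

noncomputable section

namespace UL.PkINV

open Pool.Agent.Helper97.Ku NU MeasureTheory UL

variable {I : Type} [LinearOrder I]

/-- The class of the sets which can be computed from `ω z`. -/
def Cl (D : Set I) (ω : Pt I → Pt I) (S : Set ((ℕ → Bool) × Pt I)) : Prop :=
  ∃ T : Set ((ℕ → Bool) × Pt I), MeasurableSet T ∧ DepD D T ∧ ∀ x z, (x, ω z) ∈ T ↔ (x, z) ∈ S

variable {D : Set I} {ω : Pt I → Pt I}

theorem Cl.empty : Cl D ω ∅ := ⟨∅, MeasurableSet.empty, fun _ _ _ _ => Iff.rfl, fun _ _ => Iff.rfl⟩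

theorem Cl.compl {S : Set ((ℕ → Bool) × Pt I)} (h : Cl D ω S) : Cl D ω Sᶜ := by
  obtain ⟨T, h1, h2, h3⟩ := h
  exact ⟨Tᶜ, h1.compl, fun x z z' hz => not_congr (h2 x z z' hz), fun x z => not_congr (h3 x z)⟩

theorem Cl.univ : Cl D ω Set.univ := by
  have h := (Cl.empty (D := D) (ω := ω)).compl
  rwa [Set.compl_empty] at h

theorem Cl.iUnion {κ : Type} [Countable κ] {S : κ → Set ((ℕ → Bool) × Pt I)}
    (h : ∀ k, Cl D ω (S k)) : Cl D ω (⋃ k, S k) := by
  choose T h1 h2 h3 using h
  refine ⟨⋃ k, T k, MeasurableSet.iUnion h1, fun x z z' hz => ?_, fun x z => ?_⟩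
  · rw [Set.mem_iUnion, Set.mem_iUnion]
    exact exists_congr fun k => h2 k x z z' hz
  · rw [Set.mem_iUnion, Set.mem_iUnion]
    exact exists_congr fun k => h3 k x z

theorem Cl.iInter {κ : Type} [Countable κ] {S : κ → Set ((ℕ → Bool) × Pt I)}
    (h : ∀ k, Cl D ω (S k)) : Cl D ω (⋂ k, S k) := by
  have h1 := (Cl.iUnion (fun k => (h k).compl)).compl
  rwa [Set.compl_iUnion, show (fun k => (S k)ᶜᶜ) = S from funext fun k => compl_compl _] at h1

theorem Cl.congr {S S' : Set ((ℕ → Bool) × Pt I)} (h : Cl D ω S)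
    (e : ∀ x z, (x, z) ∈ S ↔ (x, z) ∈ S') : Cl D ω S' := by
  obtain ⟨T, h1, h2, h3⟩ := h
  exact ⟨T, h1, h2, fun x z => (h3 x z).trans (e x z)⟩

/-- Sets of the form `Pre t (z ξ)` are measurable. -/
theorem meas_pre (ξ : I) (t : Str) :
    MeasurableSet {p : (ℕ → Bool) × Pt I | Pre t (p.2 ξ)} := by
  have : {p : (ℕ → Bool) × Pt I | Pre t (p.2 ξ)} =
      ⋂ i : Fin t.length, {p : (ℕ → Bool) × Pt I | t[i] = p.2 ξ i} := by
    ext p
    rw [Set.mem_iInter]
    constructor
    · intro h i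
      exact h i.1 i.2
    · intro h i hi
      exact h ⟨i, hi⟩
  rw [this]
  refine MeasurableSet.iInter fun i => ?_
  have hm : Measurable (fun p : (ℕ → Bool) × Pt I => (p.2 ξ : ℕ → Bool) i) := by
    have h1 : Measurable (fun p : (ℕ → Bool) × Pt I => p.2 ξ) :=
      (measurable_pi_apply ξ).comp measurable_snd
    have h2 : Measurable (fun p : (ℕ → Bool) × Pt I => (p.2 ξ : ℕ → Bool)) :=
      measurable_subtype_coe.comp h1
    exact (measurable_pi_apply (i : ℕ)).comp h2
  have : {p : (ℕ → Bool) × Pt I | t[i] = p.2 ξ i} =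
      (fun p : (ℕ → Bool) × Pt I => (p.2 ξ : ℕ → Bool) i) ⁻¹' {t[i]} := by
    ext p
    exact eq_comm
  rw [this]
  exact hm (measurableSet_singleton _)

/-- The string `L ξ z σ` is an initial segment of `ω z ξ` only if `σ` is one of `z ξ`. -/
theorem pre_iff_rep {L : I → Pt I → Str → Str} (hL : IsRep L ω) (z : Pt I) (ξ : I) (σ : Str) :
    Pre σ (z ξ) ↔ Pre (L ξ z σ) (ω z ξ) := by
  constructor
  · exact fun h => hL.preσ h
  · intro h
    by_contra hc
    classical
    have hP : ∃ i, ∃ hi : i < σ.length, σ[i] ≠ z ξ i := by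
      unfold Pre at hc
      push Not at hc
      exact hc
    obtain ⟨hn1, hn2⟩ := Nat.find_spec hP
    have hm : ∀ m, m < Nat.find hP → ∀ hm' : m < σ.length, σ[m] = z ξ m := fun m hm hm' => by
      by_contra h'
      exact Nat.find_min hP hm ⟨hm', h'⟩
    generalize Nat.find hP = n at hn1 hn2 hm
    have hr : σ.take n = res (z ξ) n := by
      apply List.ext_getElem
      · simp; omega
      · intro k h1 h2
        rw [List.getElem_take, res_get]
        exact hm k (by simpa using h2) _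
    have ht : σ.take (n + 1) = σ.take n ++ [σ[n]] := by
      rw [List.take_add_one]
      simp [hn1]
    have p1 : Pre (L ξ z (res (z ξ) n) ++ [z ξ n]) (ω z ξ) := by
      have h1 := hL.pre z ξ (n + 1)
      rw [res_succ] at h1
      exact h1.mono ((hL.isL ξ z).bit _ _)
    have p2 : Pre (L ξ z (res (z ξ) n) ++ [σ[n]]) (ω z ξ) := by
      have h1 : Pre (L ξ z (σ.take (n + 1))) (ω z ξ) :=
        h.mono ((hL.isL ξ z).mono' (List.take_prefix _ _))
      rw [ht, hr] at h1
      exact h1.mono ((hL.isL ξ z).bit _ _)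
    have q := p1.eq p2 (by simp)
    exact hn2 (by simpa using q.symm)

theorem claim [WellFoundedLT I] (hD : IsLowerSet D) (hω : IsM ω) (ξ : I) : ξ ∈ D → ∀ σ : Str,
    Cl D ω {p | Pre σ (p.2 ξ)} := by
  obtain ⟨L, hL⟩ := hω
  induction ξ using WellFoundedLT.induction with
  | ind ξ ih =>
    intro hξ σ
    -- cones
    have hcone : ∀ τ : I → Str, (Sp τ).Finite → Sp τ ⊆ Set.Iio ξ → Cl D ω {p | p.2 ∈ B τ} := by
      intro τ hf hs
      have : Countable (Sp τ) := hf.countable.to_subtype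
      have h1 : Cl D ω (⋂ η : Sp τ, {p : (ℕ → Bool) × Pt I | Pre (τ η) (p.2 η)}) :=
        Cl.iInter fun η => ih η.1 (hs η.2) (hD (le_of_lt (hs η.2)) hξ) (τ η)
      refine h1.congr fun x z => ?_
      rw [Set.mem_iInter]
      constructor
      · intro h η
        by_cases hη : η ∈ Sp τ
        · exact h ⟨η, hη⟩
        · have : τ η = [] := by
            by_contra hc
            exact hη hc
          rw [this]
          exact pre_nil _
      · intro h η
        exact h η.1
    -- the values of `L ξ z σ`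
    have hval : ∀ t : Str, Cl D ω {p | L ξ p.2 σ = t} := by
      intro t
      obtain ⟨A, hA, hc, h⟩ := LC_iff.1 (hL.lc ξ σ)
      have hcc : {τ : I → Str | ((Sp τ).Finite ∧ Sp τ ⊆ A) ∧
          ∀ z' ∈ B τ, L ξ z' σ = t}.Countable :=
        (countable_cones A hc).mono fun τ hτ => hτ.1
      have : Countable {τ : I → Str | ((Sp τ).Finite ∧ Sp τ ⊆ A) ∧
          ∀ z' ∈ B τ, L ξ z' σ = t} := hcc.to_subtype
      have h1 : Cl D ω (⋃ τ : {τ : I → Str | ((Sp τ).Finite ∧ Sp τ ⊆ A) ∧
          ∀ z' ∈ B τ, L ξ z' σ = t}, {p : (ℕ → Bool) × Pt I | p.2 ∈ B τ.1}) := by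
        choose T h1 h2 h3 using fun τ : {τ : I → Str | ((Sp τ).Finite ∧ Sp τ ⊆ A) ∧
          ∀ z' ∈ B τ, L ξ z' σ = t} => hcone τ.1 τ.2.1.1 (τ.2.1.2.trans hA)
        refine ⟨⋃ k, T k, MeasurableSet.iUnion h1, fun x z z' hz => ?_, fun x z => ?_⟩
        · rw [Set.mem_iUnion, Set.mem_iUnion]
          exact exists_congr fun k => h2 k x z z' hz
        · rw [Set.mem_iUnion, Set.mem_iUnion]
          exact exists_congr fun k => h3 k x z
      refine h1.congr fun x z => ?_
      rw [Set.mem_iUnion]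
      constructor
      · rintro ⟨τ, hτ⟩
        exact τ.2.2 z hτ
      · intro hz
        obtain ⟨τ, t1, t2, t3, t4⟩ := h z
        refine ⟨⟨τ, ⟨t1, t2⟩, fun z' hz' => ?_⟩, t3⟩
        rw [t4 z' hz']
        exact hz
    choose T h1 h2 h3 using hval
    refine ⟨⋃ t : Str, (T t ∩ {p | Pre t (p.2 ξ)}),
      MeasurableSet.iUnion fun t => (h1 t).inter (meas_pre ξ t), fun x z z' hz => ?_,
      fun x z => ?_⟩
    · rw [Set.mem_iUnion, Set.mem_iUnion]
      refine exists_congr fun t => and_congr (h2 t x z z' hz) ?_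
      show Pre t (z ξ) ↔ Pre t (z' ξ)
      rw [hz ξ hξ]
    · rw [Set.mem_iUnion]
      constructor
      · rintro ⟨t, ht1, ht2⟩
        have e : L ξ z σ = t := (h3 t x z).1 ht1
        show Pre σ (z ξ)
        rw [pre_iff_rep hL, e]
        exact ht2
      · intro hz
        refine ⟨L ξ z σ, (h3 _ x z).2 rfl, ?_⟩
        exact (pre_iff_rep hL z ξ σ).1 hz

open Classical in
theorem thm : UL.G_GEN → UL.G_INV := by
  intro hgen I _ _ D hD ω hω S hS hdep
  obtain ⟨z₀⟩ : Nonempty (Pt I) := inferInstance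
  let ρ : Pt I → Pt I := fun z ξ => if ξ ∈ D then z ξ else z₀ ξ
  have key : ∀ S' : Set ((ℕ → Bool) × Pt I), MeasurableSet S' →
      Cl D ω {p | (p.1, ρ p.2) ∈ S'} := by
    refine hgen.2.1 I (fun S' => Cl D ω {p | (p.1, ρ p.2) ∈ S'}) ?_ ?_ ?_ ?_
    · exact Cl.empty
    · rintro S' (⟨n, rfl⟩ | ⟨ξ, i, rfl⟩)
      · refine ⟨{p | p.1 n = true}, ?_, fun x z z' hz => Iff.rfl, fun x z => Iff.rfl⟩
        have hm : Measurable (fun p : (ℕ → Bool) × Pt I => p.1 n) :=
          (measurable_pi_apply n).comp measurable_fst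
        exact hm (measurableSet_singleton true)
      · by_cases hξ : ξ ∈ D
        · have h1 : Cl D ω (⋃ σ : {σ : Str // ∃ h : i < σ.length, σ[i] = true},
              {p : (ℕ → Bool) × Pt I | Pre σ.1 (p.2 ξ)}) :=
            Cl.iUnion fun σ => claim hD hω ξ hξ σ.1
          refine h1.congr fun x z => ?_
          rw [Set.mem_iUnion]
          show _ ↔ ρ z ξ i = true
          have e : ρ z ξ = z ξ := if_pos hξ
          rw [e]
          constructor
          · rintro ⟨⟨σ, h, h'⟩, hσ⟩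
            have := hσ i h
            rw [← this]
            exact h'
          · intro h
            refine ⟨⟨res (z ξ) (i + 1), by simp, ?_⟩, pre_res _ _⟩
            rw [res_get]
            exact h
        · have e : ∀ z, ρ z ξ = z₀ ξ := fun z => if_neg hξ
          by_cases hb : z₀ ξ i = true
          · refine Cl.univ.congr fun x z => ?_
            show True ↔ ρ z ξ i = true
            rw [e]
            exact ⟨fun _ => hb, fun _ => trivial⟩
          · refine Cl.empty.congr fun x z => ?_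
            show False ↔ ρ z ξ i = true
            rw [e]
            exact ⟨False.elim, hb⟩
    · intro S' h
      exact h.compl
    · intro S' h
      refine (Cl.iUnion h).congr fun x z => ?_
      show (x, z) ∈ (⋃ n, {p : (ℕ → Bool) × Pt I | (p.1, ρ p.2) ∈ S' n}) ↔ (x, ρ z) ∈ ⋃ n, S' n
      rw [Set.mem_iUnion, Set.mem_iUnion]
      exact Iff.rfl
  refine (key S hS).congr fun x z => ?_
  show (x, ρ z) ∈ S ↔ (x, z) ∈ S
  refine hdep x (ρ z) z fun ξ hξ => ?_
  exact if_pos hξ

end UL.PkINV
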